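import Pool.Agent.Y230.TH.Stm
import Pool.Agent.W574.HS.Minus

set_option autoImplicit false
set_option linter.unusedSectionVars false

/-! # A microlocal functional equation gives an ordinary one (Saito) -/

namespace Pool.Agent.Y21.TH

open MvPolynomial
open Pool.Agent.W574.SM (weyl)
open Pool.Agent.W574.HS (Seq act_pow)
open Pool.Agent.H628R4.TP (IsBFunction weylS)
open Pool.Agent.Y230.TH (kf W StA)

variable {τ : Type}

/-- multiplication by a polynomial -/
noncomputable abbrev ML (h : MvPolynomial τ ℂ) : Module.End ℂ (MvPolynomial τ ℂ) :=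
  LinearMap.mulLeft ℂ h

/-- a partial derivative -/
noncomputable abbrev PD (i : τ) : Module.End ℂ (MvPolynomial τ ℂ) :=
  ((pderiv i : Derivation ℂ (MvPolynomial τ ℂ) (MvPolynomial τ ℂ)) :
    MvPolynomial τ ℂ →ₗ[ℂ] MvPolynomial τ ℂ)

theorem ml_mem (h : MvPolynomial τ ℂ) : ML h ∈ weyl τ := by
  classical
  induction h using MvPolynomial.induction_on with
  | C a =>
    have : ML (C a : MvPolynomial τ ℂ) = algebraMap ℂ _ a := by
      refine LinearMap.ext fun p => ?_
      change C a * p = a • p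
      rw [C_mul']
    rw [this]
    exact Subalgebra.algebraMap_mem _ a
  | add p q hp hq =>
    have : ML (p + q) = ML p + ML q := by
      refine LinearMap.ext fun u => ?_
      exact add_mul p q u
    rw [this]
    exact Subalgebra.add_mem _ hp hq
  | mul_X p i hp =>
    have : ML (p * X i) = ML p * ML (X i) := by
      refine LinearMap.ext fun u => ?_
      exact mul_assoc p (X i) u
    rw [this]
    exact Subalgebra.mul_mem _ hp (Algebra.subset_adjoin (Or.inl ⟨i, rfl⟩))

/-- operators `p ↦ h p + ∑ A_i ∂_i p` -/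
noncomputable def NN (τ : Type) : Submodule ℂ (Module.End ℂ (MvPolynomial τ ℂ)) :=
  Submodule.span ℂ ({N | ∃ h : MvPolynomial τ ℂ, N = ML h} ∪
    {N | ∃ (A : Module.End ℂ (MvPolynomial τ ℂ)) (i : τ), A ∈ weyl τ ∧ N = A * PD i})

theorem nn_ml (h : MvPolynomial τ ℂ) : ML h ∈ NN τ :=
  Submodule.subset_span (Or.inl ⟨h, rfl⟩)

theorem nn_pd (A : Module.End ℂ (MvPolynomial τ ℂ)) (hA : A ∈ weyl τ) (i : τ) :
    A * PD i ∈ NN τ :=
  Submodule.subset_span (Or.inr ⟨A, i, hA, rfl⟩)

theorem nn_of (Q : Module.End ℂ (MvPolynomial τ ℂ)) (hQ : Q ∈ weyl τ) :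
    ∀ h : MvPolynomial τ ℂ, Q * ML h ∈ NN τ := by
  classical
  induction hQ using Algebra.adjoin_induction with
  | mem Q hQ =>
    intro h
    rcases hQ with ⟨i, rfl⟩ | ⟨i, rfl⟩
    · have : ML (X i : MvPolynomial τ ℂ) * ML h = ML (X i * h) := by
        refine LinearMap.ext fun u => ?_
        exact (mul_assoc (X i) h u).symm
      change ML (X i : MvPolynomial τ ℂ) * ML h ∈ NN τ
      rw [this]
      exact nn_ml _
    · have : PD i * ML h = ML (pderiv i h) + ML h * PD i := by
        refine LinearMap.ext fun u => ?_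
        change pderiv i (h * u) = pderiv i h * u + h * pderiv i u
        rw [Derivation.leibniz, smul_eq_mul, smul_eq_mul]
        ring
      change PD i * ML h ∈ NN τ
      rw [this]
      exact Submodule.add_mem _ (nn_ml _) (nn_pd _ (ml_mem h) i)
  | algebraMap c =>
    intro h
    have : (algebraMap ℂ (Module.End ℂ (MvPolynomial τ ℂ)) c) * ML h = c • ML h := by
      refine LinearMap.ext fun u => ?_
      rfl
    rw [this]
    exact Submodule.smul_mem _ _ (nn_ml _)
  | add Q1 Q2 _ _ h1 h2 =>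
    intro h
    rw [add_mul]
    exact Submodule.add_mem _ (h1 h) (h2 h)
  | mul Q1 Q2 hm1 _ h1 h2 =>
    intro h
    have key : ∀ N ∈ NN τ, Q1 * N ∈ NN τ := by
      intro N hN
      induction hN using Submodule.span_induction with
      | mem N hN =>
        rcases hN with ⟨h', rfl⟩ | ⟨A, i, hA, rfl⟩
        · exact h1 h'
        · rw [← mul_assoc]
          exact nn_pd _ (Subalgebra.mul_mem _ hm1 hA) i
      | zero => rw [mul_zero]; exact Submodule.zero_mem _
      | add N N' _ _ h1 h2 => rw [mul_add]; exact Submodule.add_mem _ h1 h2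
      | smul c N _ h1 => rw [mul_smul_comm]; exact Submodule.smul_mem _ _ h1
    rw [mul_assoc]
    exact key _ (h2 h)

theorem nn_weyl (Q : Module.End ℂ (MvPolynomial τ ℂ)) (hQ : Q ∈ weyl τ) : Q ∈ NN τ := by
  have h := nn_of Q hQ 1
  have : ML (1 : MvPolynomial τ ℂ) = 1 := by
    refine LinearMap.ext fun u => ?_
    exact one_mul u
  rwa [this, mul_one] at h

/-- the functions `k ↦ k ^ j k! / (k + e)! N g ^ (k + e)`, linearly in `N` -/
noncomputable def Ph (g : MvPolynomial τ ℂ) (j e : ℕ) :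
    Module.End ℂ (MvPolynomial τ ℂ) →ₗ[ℂ] (ℕ → MvPolynomial τ ℂ) where
  toFun N k := ((k : ℂ) ^ j * kf k e) • N (g ^ (k + e))
  map_add' N N' := by
    funext k
    exact smul_add _ _ _
  map_smul' c N := by
    funext k
    change ((k : ℂ) ^ j * kf k e) • (c • N (g ^ (k + e))) =
      c • (((k : ℂ) ^ j * kf k e) • N (g ^ (k + e)))
    exact smul_comm _ _ _

theorem Ph_apply (g : MvPolynomial τ ℂ) (j e : ℕ) (N : Module.End ℂ (MvPolynomial τ ℂ)) (k : ℕ) :
    Ph g j e N k = ((k : ℂ) ^ j * kf k e) • N (g ^ (k + e)) := rfl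

theorem kf_succ (k e : ℕ) : ((k + e + 1 : ℕ) : ℂ) * kf k (e + 1) = kf k e := by
  have h1 : (((k + e).factorial : ℕ) : ℂ) ≠ 0 := by exact_mod_cast (k + e).factorial_ne_zero
  have h2 : ((k + e + 1 : ℕ) : ℂ) ≠ 0 := by exact_mod_cast Nat.succ_ne_zero (k + e)
  unfold kf
  rw [← Nat.add_assoc k e 1, Nat.factorial_succ]
  push_cast at h2 ⊢
  field_simp

/-- generators with `e = 1` -/
noncomputable def DD (g : MvPolynomial τ ℂ) : Submodule ℂ (ℕ → MvPolynomial τ ℂ) :=
  Submodule.span ℂ {v | ∃ (j : ℕ) (Q : weyl τ), v = Ph g j 1 Q}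

/-- multiples of the powers with `e ≥ 2` -/
noncomputable def HH (g : MvPolynomial τ ℂ) : Submodule ℂ (ℕ → MvPolynomial τ ℂ) :=
  Submodule.span ℂ {v | ∃ (e : ℕ) (h : MvPolynomial τ ℂ), v = Ph g 0 (e + 2) (ML h)}

theorem gen_mem (g : MvPolynomial τ ℂ) (e : ℕ) :
    ∀ (j : ℕ) (Q : Module.End ℂ (MvPolynomial τ ℂ)), Q ∈ weyl τ →
      Ph g j (e + 1) Q ∈ DD g ⊔ HH g := by
  induction e with
  | zero =>
    intro j Q hQ
    exact Submodule.mem_sup_left (Submodule.subset_span ⟨j, ⟨Q, hQ⟩, rfl⟩)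
  | succ e ih =>
    have hML : ∀ (j : ℕ) (h : MvPolynomial τ ℂ), Ph g j (e + 1 + 1) (ML h) ∈ DD g ⊔ HH g := by
      intro j
      induction j with
      | zero =>
        intro h
        exact Submodule.mem_sup_right (Submodule.subset_span ⟨e, h, rfl⟩)
      | succ j ihj =>
        intro h
        have : Ph g (j + 1) (e + 1 + 1) (ML h) = Ph g j (e + 1) (ML (h * g)) -
            ((e + 1 + 1 : ℕ) : ℂ) • Ph g j (e + 1 + 1) (ML h) := by
          funext k
          change _ = Ph g j (e + 1) (ML (h * g)) k -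
            ((e + 1 + 1 : ℕ) : ℂ) • Ph g j (e + 1 + 1) (ML h) k
          rw [Ph_apply, Ph_apply, Ph_apply, LinearMap.mulLeft_apply, LinearMap.mulLeft_apply]
          have h1 : h * g * g ^ (k + (e + 1)) = h * g ^ (k + (e + 1 + 1)) := by
            rw [← Nat.add_assoc k (e + 1) 1, pow_succ]
            ring
          rw [h1, smul_smul, ← sub_smul]
          congr 1
          have h2 := kf_succ k (e + 1)
          push_cast at h2 ⊢
          rw [← h2]
          ring
        rw [this]
        exact Submodule.sub_mem _ (ih j _ (ml_mem _)) (Submodule.smul_mem _ _ (ihj h))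
    intro j Q hQ
    have hle : NN τ ≤ (DD g ⊔ HH g).comap (Ph g j (e + 1 + 1)) := by
      refine Submodule.span_le.mpr ?_
      rintro N (⟨h, rfl⟩ | ⟨A, i, hA, rfl⟩)
      · exact hML j h
      · change Ph g j (e + 1 + 1) (A * PD i) ∈ DD g ⊔ HH g
        have : Ph g j (e + 1 + 1) (A * PD i) = Ph g j (e + 1) (A * ML (pderiv i g)) := by
          funext k
          rw [Ph_apply, Ph_apply]
          have h1 : (A * PD i) (g ^ (k + (e + 1 + 1))) =
              ((k + (e + 1) + 1 : ℕ) : ℂ) • (A * ML (pderiv i g)) (g ^ (k + (e + 1))) := by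
            change A (pderiv i (g ^ (k + (e + 1 + 1)))) = _ • A (pderiv i g * g ^ (k + (e + 1)))
            rw [← Nat.add_assoc k (e + 1) 1, Derivation.leibniz_pow, Nat.add_sub_cancel,
              smul_eq_mul, ← map_smul, mul_comm (pderiv i g), Nat.cast_smul_eq_nsmul]
          rw [h1, smul_smul]
          congr 1
          have h2 := kf_succ k (e + 1)
          rw [← h2]
          ring
        rw [this]
        exact ih j _ (Subalgebra.mul_mem _ hA (ml_mem _))
    exact hle (nn_weyl Q hQ)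

theorem W_le (g : MvPolynomial τ ℂ) : W g ≤ DD g ⊔ HH g := by
  refine Submodule.span_le.mpr ?_
  rintro v ⟨j, e, Q, he, rfl⟩
  obtain ⟨e, rfl⟩ : ∃ e', e = e' + 1 := ⟨e - 1, by omega⟩
  exact gen_mem g e j Q Q.2

theorem DD_eq (g : MvPolynomial τ ℂ) (v : ℕ → MvPolynomial τ ℂ) (hv : v ∈ DD g) :
    ∃ P : ℕ →₀ weyl τ, ∀ k : ℕ, ((k : ℂ) + 1) • v k =
      P.sum fun m Q => ((k : ℂ) ^ m) • (Q : Module.End ℂ (MvPolynomial τ ℂ)) (g ^ (k + 1)) := by
  classical
  induction hv using Submodule.span_induction with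
  | mem v hv =>
    obtain ⟨j, Q, rfl⟩ := hv
    refine ⟨Finsupp.single j Q, fun k => ?_⟩
    rw [Finsupp.sum_single_index (by simp), Ph_apply, smul_smul]
    congr 1
    have h2 := kf_succ k 0
    have h3 : kf k 0 = 1 := by
      unfold kf
      exact div_self (by exact_mod_cast k.factorial_ne_zero)
    rw [h3] at h2
    push_cast at h2
    linear_combination (k : ℂ) ^ j * h2
  | zero => exact ⟨0, fun k => by simp⟩
  | add v v' _ _ h1 h2 =>
    obtain ⟨P, h1⟩ := h1
    obtain ⟨P', h2⟩ := h2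
    refine ⟨P + P', fun k => ?_⟩
    rw [Finsupp.sum_add_index' (by simp) (fun m Q Q' => by simp), ← h1, ← h2]
    exact smul_add _ _ _
  | smul c v _ h1 =>
    obtain ⟨P, h1⟩ := h1
    refine ⟨c • P, fun k => ?_⟩
    rw [Finsupp.sum_smul_index' (by simp)]
    have : ((k : ℂ) + 1) • (c • v) k = c • (((k : ℂ) + 1) • v k) := by
      change ((k : ℂ) + 1) • (c • v k) = c • (((k : ℂ) + 1) • v k)
      exact smul_comm _ _ _
    rw [this, h1, Finsupp.smul_sum]
    refine Finsupp.sum_congr fun m _ => ?_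
    exact smul_comm _ _ _

/-- `(k + 1) v(k) / g ^ k` is a proper rational function of `k` -/
def Prop' (g : MvPolynomial τ ℂ) (v : ℕ → MvPolynomial τ ℂ) : Prop :=
  ∃ R T : Polynomial (MvPolynomial τ ℂ), R.Monic ∧ T.degree < R.degree ∧ ∀ k : ℕ,
    R.eval (k : MvPolynomial τ ℂ) * (((k : ℂ) + 1) • v k) = T.eval (k : MvPolynomial τ ℂ) * g ^ k

theorem HH_gen (g : MvPolynomial τ ℂ) (e : ℕ) (h : MvPolynomial τ ℂ) :
    Prop' g (Ph g 0 (e + 2) (ML h)) := by
  classical
  set R : ℕ → Polynomial (MvPolynomial τ ℂ) := fun e =>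
    ∏ i ∈ Finset.range e, (Polynomial.X + Polynomial.C ((i + 2 : ℕ) : MvPolynomial τ ℂ)) with hR
  have hmon : ∀ e, (R e).Monic := fun e =>
    Polynomial.monic_prod_of_monic _ _ fun i _ => Polynomial.monic_X_add_C _
  have hdeg : ∀ e, (R e).natDegree = e := by
    intro e
    rw [hR]
    change (∏ i ∈ Finset.range e,
      (Polynomial.X + Polynomial.C ((i + 2 : ℕ) : MvPolynomial τ ℂ))).natDegree = e
    rw [Polynomial.natDegree_prod_of_monic _ _ fun i _ => Polynomial.monic_X_add_C _,
      Finset.sum_congr rfl fun i _ => Polynomial.natDegree_X_add_C _]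
    simp
  have hval : ∀ (e k : ℕ), (R e).eval (k : MvPolynomial τ ℂ) *
      C (((k : ℂ) + 1) * kf k (e + 1)) = 1 := by
    intro e k
    induction e with
    | zero =>
      have h2 := kf_succ k 0
      have h3 : kf k 0 = 1 := by
        unfold kf
        exact div_self (by exact_mod_cast k.factorial_ne_zero)
      rw [h3] at h2
      push_cast at h2
      have h4 : ((k : ℂ) + 1) * kf k (0 + 1) = 1 := by linear_combination h2
      rw [h4]
      simp [hR]
    | succ e ih =>
      have h1 : R (e + 1) = R e *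
          (Polynomial.X + Polynomial.C ((e + 2 : ℕ) : MvPolynomial τ ℂ)) := by
        rw [hR]; exact Finset.prod_range_succ _ _
      rw [h1, Polynomial.eval_mul, Polynomial.eval_add, Polynomial.eval_X, Polynomial.eval_C]
      have h2 := kf_succ k (e + 1)
      have h3 : ((k : MvPolynomial τ ℂ) + ((e + 2 : ℕ) : MvPolynomial τ ℂ)) =
          C (((k + (e + 1) + 1 : ℕ) : ℂ)) := by
        rw [map_natCast]
        push_cast
        ring
      rw [h3, mul_assoc, ← C_mul, ← ih]
      congr 2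
      rw [← h2]
      ring
  refine ⟨R (e + 1), Polynomial.C (h * g ^ (e + 2)), hmon _, ?_, fun k => ?_⟩
  · rw [Polynomial.degree_eq_natDegree (hmon _).ne_zero, hdeg]
    refine lt_of_le_of_lt Polynomial.degree_C_le ?_
    exact_mod_cast Nat.succ_pos e
  · rw [Ph_apply, LinearMap.mulLeft_apply, smul_smul, Polynomial.eval_C, pow_zero, one_mul,
      ← C_mul', ← mul_assoc, hval (e + 1) k, one_mul, pow_add]
    ring

theorem HH_prop (g : MvPolynomial τ ℂ) (v : ℕ → MvPolynomial τ ℂ) (hv : v ∈ HH g) :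
    Prop' g v := by
  classical
  induction hv using Submodule.span_induction with
  | mem v hv =>
    obtain ⟨e, h, rfl⟩ := hv
    exact HH_gen g e h
  | zero =>
    refine ⟨1, 0, Polynomial.monic_one, ?_, fun k => by simp⟩
    rw [Polynomial.degree_zero, Polynomial.degree_one]
    exact WithBot.bot_lt_coe 0
  | add v v' _ _ h1 h2 =>
    obtain ⟨R, T, hR, hT, h1⟩ := h1
    obtain ⟨R', T', hR', hT', h2⟩ := h2
    refine ⟨R * R', T * R' + R * T', hR.mul hR', ?_, fun k => ?_⟩
    · refine lt_of_le_of_lt (Polynomial.degree_add_le _ _) ?_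
      rw [Polynomial.degree_mul, Polynomial.degree_mul, Polynomial.degree_mul]
      rw [Polynomial.degree_eq_natDegree hR.ne_zero,
        Polynomial.degree_eq_natDegree hR'.ne_zero] at *
      refine max_lt ?_ ?_
      · exact WithBot.add_lt_add_right WithBot.coe_ne_bot hT
      · exact WithBot.add_lt_add_left WithBot.coe_ne_bot hT'
    · have h3 : ((k : ℂ) + 1) • (v + v') k = ((k : ℂ) + 1) • v k + ((k : ℂ) + 1) • v' k :=
        smul_add _ _ _
      rw [h3, Polynomial.eval_mul, Polynomial.eval_add, Polynomial.eval_mul, Polynomial.eval_mul]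
      linear_combination R'.eval (k : MvPolynomial τ ℂ) * h1 k +
        R.eval (k : MvPolynomial τ ℂ) * h2 k
  | smul c v _ h1 =>
    obtain ⟨R, T, hR, hT, h1⟩ := h1
    refine ⟨R, Polynomial.C (C c) * T, hR, ?_, fun k => ?_⟩
    · refine lt_of_le_of_lt ?_ hT
      rw [Polynomial.degree_mul]
      calc (Polynomial.C (C c : MvPolynomial τ ℂ)).degree + T.degree ≤ 0 + T.degree :=
            add_le_add Polynomial.degree_C_le le_rfl
        _ = T.degree := zero_add _
    · have h3 : ((k : ℂ) + 1) • (c • v) k = c • (((k : ℂ) + 1) • v k) := by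
        change ((k : ℂ) + 1) • (c • v k) = c • (((k : ℂ) + 1) • v k)
        exact smul_comm _ _ _
      rw [h3, Polynomial.eval_mul, Polynomial.eval_C, ← C_mul']
      linear_combination C c * h1 k

theorem poly_zero (p : Polynomial (MvPolynomial τ ℂ))
    (h : ∀ n : ℕ, p.eval (n : MvPolynomial τ ℂ) = 0) : p = 0 := by
  apply Polynomial.eq_zero_of_infinite_isRoot
  refine Set.Infinite.mono ?_ (Set.infinite_range_of_injective
    (f := fun n : ℕ => (n : MvPolynomial τ ℂ)) ?_)
  · rintro _ ⟨n, rfl⟩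
    exact h n
  · intro a b hab
    exact Nat.cast_injective hab

theorem seq_sum (g : MvPolynomial τ ℂ) (P : ℕ →₀ weyl τ) (s : Finset ℕ) :
    Seq g fun k => ∑ m ∈ s,
      ((k : ℂ) ^ m) • (P m : Module.End ℂ (MvPolynomial τ ℂ)) (g ^ (k + 1)) := by
  classical
  induction s using Finset.induction_on with
  | empty => exact ⟨0, 0, fun n => by simp⟩
  | insert m s hm ih =>
    obtain ⟨K, r, h1⟩ := ih
    obtain ⟨K', r', h2⟩ := act_pow g (P m : Module.End ℂ (MvPolynomial τ ℂ)) (P m).2
      (fun k => g ^ (k + 1)) ⟨0, Polynomial.C g, fun n => by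
        change g ^ 0 * g ^ (n + 1) = _
        rw [Polynomial.eval_C, pow_zero, one_mul, pow_succ']⟩
    refine ⟨K + K', Polynomial.C (g ^ K) * Polynomial.X ^ m * r' + Polynomial.C (g ^ K') * r,
      fun n => ?_⟩
    have h3 : ((n : ℂ) ^ m) • (P m : Module.End ℂ (MvPolynomial τ ℂ)) (g ^ (n + 1)) =
        (n : MvPolynomial τ ℂ) ^ m * (P m : Module.End ℂ (MvPolynomial τ ℂ)) (g ^ (n + 1)) := by
      rw [← C_mul', map_pow, map_natCast]
    change g ^ (K + K') * (∑ m ∈ insert m s,
      ((n : ℂ) ^ m) • (P m : Module.End ℂ (MvPolynomial τ ℂ)) (g ^ (n + 1))) = _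
    rw [Finset.sum_insert hm, h3, Polynomial.eval_add, Polynomial.eval_mul, Polynomial.eval_mul,
      Polynomial.eval_mul, Polynomial.eval_C, Polynomial.eval_C, Polynomial.eval_pow,
      Polynomial.eval_X, pow_add]
    linear_combination g ^ K * (n : MvPolynomial τ ℂ) ^ m * h2 n + g ^ K' * h1 n

/-- **Job A.** -/
theorem tA : StA := by
  classical
  intro τ g hg q hq
  obtain ⟨v, hv, η, hη, hsum⟩ := Submodule.mem_sup.mp (W_le g hq)
  obtain ⟨P, hP⟩ := DD_eq g v hv
  obtain ⟨R, T, hR, hT, hRT⟩ := HH_prop g η hη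
  obtain ⟨M, r, hr⟩ := seq_sum g P P.support
  have hB : ∀ k : ℕ, g ^ M * (((k : ℂ) + 1) • v k) = r.eval (k : MvPolynomial τ ℂ) * g ^ k := by
    intro k
    rw [hP k]
    exact hr k
  -- the value of `(k + 1) q(k) g ^ k`
  have hq1 : ∀ k : ℕ, ((k : ℂ) + 1) • (q.eval (k : ℂ) • g ^ k) =
      ((k : ℂ) + 1) • v k + ((k : ℂ) + 1) • η k := by
    intro k
    have h := congrFun hsum k
    rw [← smul_add]
    congr 1
    exact h.symm
  have hq2 : ∀ k : ℕ, ((k : ℂ) + 1) • (q.eval (k : ℂ) • g ^ k) =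
      ((Polynomial.X + 1) * q.map (C : ℂ →+* MvPolynomial τ ℂ)).eval
        (k : MvPolynomial τ ℂ) * g ^ k := by
    intro k
    have h4 : (k : MvPolynomial τ ℂ) = C (k : ℂ) := by simp
    rw [Polynomial.eval_mul, Polynomial.eval_add, Polynomial.eval_X, Polynomial.eval_one, h4,
      Polynomial.eval_map, Polynomial.eval₂_at_apply, smul_smul, ← C_mul', C_mul, C_add, C_1]
  set G : Polynomial (MvPolynomial τ ℂ) :=
    Polynomial.C (g ^ M) * ((Polynomial.X + 1) * q.map (C : ℂ →+* MvPolynomial τ ℂ)) - r with hG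
  have hzero : R * G - Polynomial.C (g ^ M) * T = 0 := by
    apply poly_zero
    intro k
    have hgk : g ^ k ≠ 0 := pow_ne_zero k hg
    apply mul_right_cancel₀ hgk
    have h1 := hq1 k
    rw [hq2 k] at h1
    rw [zero_mul, hG]
    simp only [Polynomial.eval_sub, Polynomial.eval_mul, Polynomial.eval_C] at h1 ⊢
    linear_combination (R.eval (k : MvPolynomial τ ℂ) * g ^ M) * h1 +
      R.eval (k : MvPolynomial τ ℂ) * hB k + g ^ M * hRT k
  have hG0 : G = 0 := by
    by_contra hne
    have h1 : R * G = Polynomial.C (g ^ M) * T := sub_eq_zero.mp hzero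
    have h2 : (R * G).degree = (Polynomial.C (g ^ M) * T).degree := by rw [h1]
    rw [Polynomial.degree_mul, Polynomial.degree_mul] at h2
    have h3 : (Polynomial.C (g ^ M)).degree + T.degree ≤ T.degree := by
      calc (Polynomial.C (g ^ M)).degree + T.degree ≤ 0 + T.degree :=
            add_le_add Polynomial.degree_C_le le_rfl
        _ = T.degree := zero_add _
    have h4 : R.degree ≤ R.degree + G.degree := by
      calc R.degree = R.degree + 0 := (add_zero _).symm
        _ ≤ R.degree + G.degree := add_le_add le_rfl (Polynomial.zero_le_degree_iff.mpr hne)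
    exact absurd (lt_of_le_of_lt h3 hT) (not_lt.mpr (h2 ▸ h4))
  refine ⟨P, fun k => ?_⟩
  have hgM : g ^ M ≠ 0 := pow_ne_zero M hg
  apply mul_left_cancel₀ hgM
  have h5 : g ^ M * (P.sum fun m Q =>
      ((k : ℂ) ^ m) • (Q : Module.End ℂ (MvPolynomial τ ℂ)) (g ^ (k + 1))) =
      r.eval (k : MvPolynomial τ ℂ) * g ^ k := hr k
  have h6 : (Polynomial.C (g ^ M) * ((Polynomial.X + 1) *
      q.map (C : ℂ →+* MvPolynomial τ ℂ)) - r).eval (k : MvPolynomial τ ℂ) = 0 := by
    rw [← hG, hG0, Polynomial.eval_zero]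
  rw [Polynomial.eval_sub, Polynomial.eval_mul, Polynomial.eval_C] at h6
  have h7 : C (((Polynomial.X + 1) * q).eval (k : ℂ)) * g ^ k =
      ((Polynomial.X + 1) * q.map (C : ℂ →+* MvPolynomial τ ℂ)).eval
        (k : MvPolynomial τ ℂ) * g ^ k := by
    rw [← hq2 k, smul_smul, ← C_mul', Polynomial.eval_mul, Polynomial.eval_add,
      Polynomial.eval_X, Polynomial.eval_one]
  refine Eq.trans ?_ h5.symm
  rw [h7]
  linear_combination g ^ k * h6

end Pool.Agent.Y21.TH
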